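import Pool.Agent.Helper18.SU.Goals2

/-!
ARB: arborescences in tournaments with `2 |S| - 1` vertices (median orders).
-/

set_option autoImplicit false

namespace Pool.Agent.Helper13.SU

open Pool.Agent.Helper18.SU

theorem exists_child {W : Type} [DecidableEq W] {r : W} {par : W → W} {dep : W → ℕ}
    (hR : Rooted r par dep) {S T : Finset W} (hS : ∀ v ∈ S, par v ∈ S) (hTS : T ⊆ S)
    (hne : T ≠ S) (hr : r ∈ T) : ∃ c ∈ S, c ∉ T ∧ c ≠ r ∧ par c ∈ T := by
  have h1 : (S \ T).Nonempty := by
    rw [Finset.sdiff_nonempty]
    intro h
    exact hne (Finset.Subset.antisymm hTS h)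
  obtain ⟨c, hc, hmin⟩ := Finset.exists_min_image (S \ T) dep h1
  rw [Finset.mem_sdiff] at hc
  have hcr : c ≠ r := fun h => hc.2 (h ▸ hr)
  refine ⟨c, hc.1, hc.2, hcr, ?_⟩
  by_contra hp
  have h2 := hmin (par c) (Finset.mem_sdiff.2 ⟨hS c hc.1, hp⟩)
  have h3 := hR.2.2 c hcr
  omega

theorem count_step {V : Type} [DecidableEq V] {A : V → V → Prop} (hDEG : DEG_stmt)
    (hA : Tour A) (d : Bool) {p1 p2 : List V} {a : V} {img : Finset V}
    (hnd : (p1 ++ a :: p2).Nodup)
    (hl : (nb A (!d) p2.toFinset a).card ≤ (nb A d p2.toFinset a).card)
    (ha : a ∈ img) (hnb : nb A d p2.toFinset a ⊆ img)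
    (h1 : p1 ≠ [] → p1.length + 1 ≤ 2 * (img ∩ p1.toFinset).card) :
    (p1 ++ a :: p2).length + 1 ≤ 2 * (img ∩ (p1 ++ a :: p2).toFinset).card := by
  classical
  rw [List.nodup_append] at hnd
  obtain ⟨hn1, hn2, hdis⟩ := hnd
  rw [List.nodup_cons] at hn2
  obtain ⟨hap2, hn2⟩ := hn2
  have ha1 : a ∉ p1 := fun h => hdis a h a (by simp) rfl
  have hd12 : ∀ y ∈ p1, y ∉ p2 := fun y hy h => hdis y hy y (by simp [h]) rfl
  have hap2' : a ∉ p2.toFinset := by simpa using hap2
  have hdeg := (hDEG V A hA).1 p2.toFinset a hap2'
  have hp2 : p2.toFinset.card = p2.length := List.toFinset_card_of_nodup hn2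
  have hnbsub : nb A d p2.toFinset a ⊆ p2.toFinset := Finset.filter_subset _ _
  have h2 : p2.length ≤ 2 * (nb A d p2.toFinset a).card := by
    cases d
    · simp only [Bool.not_false] at hl; omega
    · simp only [Bool.not_true] at hl; omega
  have hsub : (img ∩ p1.toFinset) ∪ ({a} ∪ nb A d p2.toFinset a) ⊆
      img ∩ (p1 ++ a :: p2).toFinset := by
    intro y hy
    rw [Finset.mem_union, Finset.mem_inter, Finset.mem_union, Finset.mem_singleton] at hy
    rw [Finset.mem_inter, List.mem_toFinset, List.mem_append, List.mem_cons]
    rcases hy with ⟨hy1, hy2⟩ | rfl | hy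
    · exact ⟨hy1, Or.inl (List.mem_toFinset.1 hy2)⟩
    · exact ⟨ha, Or.inr (Or.inl rfl)⟩
    · exact ⟨hnb hy, Or.inr (Or.inr (List.mem_toFinset.1 (hnbsub hy)))⟩
  have hd1 : Disjoint ({a} : Finset V) (nb A d p2.toFinset a) := by
    rw [Finset.disjoint_singleton_left]
    exact fun h => hap2' (hnbsub h)
  have hd2 : Disjoint (img ∩ p1.toFinset) ({a} ∪ nb A d p2.toFinset a) := by
    rw [Finset.disjoint_left]
    intro y hy hy2
    rw [Finset.mem_inter, List.mem_toFinset] at hy
    rw [Finset.mem_union, Finset.mem_singleton] at hy2
    rcases hy2 with rfl | hy2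
    · exact ha1 hy.2
    · exact hd12 y hy.2 (List.mem_toFinset.1 (hnbsub hy2))
  have hcard := Finset.card_le_card hsub
  rw [Finset.card_union_of_disjoint hd2, Finset.card_union_of_disjoint hd1,
    Finset.card_singleton] at hcard
  rw [List.length_append, List.length_cons]
  by_cases hp1 : p1 = []
  · subst hp1
    simp only [List.length_nil]
    omega
  · have := h1 hp1
    omega

/-- The invariant of the induction. -/
structure Inv {W V : Type} [DecidableEq W] [DecidableEq V] (A : V → V → Prop) (r : W)
    (par : W → W) (sgn : W → Bool) (d : Bool) (S : Finset W) (p : List V) (T : Finset W)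
    (f : W → V) : Prop where
  sub : T ⊆ S
  closed : ∀ v ∈ T, par v ∈ T
  root : r ∈ T
  emb : Emb A r par sgn T p.toFinset f
  alt : T = S ∨
    ((∀ w ∈ T, (∃ c ∈ S, c ∉ T ∧ c ≠ r ∧ par c = w) → ∀ p1 p2, p = p1 ++ f w :: p2 →
      ∀ y ∈ p2, Arc A d (f w) y → y ∈ T.image f) ∧
    (∀ p1 p2, p = p1 ++ p2 → p1 ≠ [] →
      p1.length + 1 ≤ 2 * (T.image f ∩ p1.toFinset).card))

/-- From (I1) for the whole prefix and (I2) for shorter prefixes to (I2). -/
theorem i2_full {W V : Type} [DecidableEq W] [DecidableEq V] {A : V → V → Prop}
    (hDEG : DEG_stmt) (hA : Tour A) {r : W} {par : W → W} {dep : W → ℕ}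
    (hR : Rooted r par dep) {sgn : W → Bool} {d : Bool} {S : Finset W}
    (hS : ∀ v ∈ S, par v ∈ S) {p q : List V} {T : Finset W} {f : W → V}
    (hTS : T ⊆ S) (hne : T ≠ S) (hr : r ∈ T) (hemb : Emb A r par sgn T p.toFinset f)
    (hnd : p.Nodup)
    (hl : ∀ (l1 l2 l3 : List V) (x : V), p ++ q = l1 ++ x :: (l2 ++ l3) →
        (nb A (!d) l2.toFinset x).card ≤ (nb A d l2.toFinset x).card)
    (hI1 : ∀ w ∈ T, (∃ c ∈ S, c ∉ T ∧ c ≠ r ∧ par c = w) → ∀ p1 p2, p = p1 ++ f w :: p2 →
      ∀ y ∈ p2, Arc A d (f w) y → y ∈ T.image f)
    (hI2 : ∀ p1 p2, p = p1 ++ p2 → p1 ≠ [] → p2 ≠ [] →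
      p1.length + 1 ≤ 2 * (T.image f ∩ p1.toFinset).card) :
    p.length + 1 ≤ 2 * (T.image f ∩ p.toFinset).card := by
  classical
  obtain ⟨c, hcS, hcT, hcr, hpc⟩ := exists_child hR hS hTS hne hr
  have hmem : f (par c) ∈ p := List.mem_toFinset.1 (hemb.1 _ hpc)
  obtain ⟨p1, p2, hp⟩ := List.append_of_mem hmem
  have h1 := hI1 (par c) hpc ⟨c, hcS, hcT, hcr, rfl⟩ p1 p2 hp
  have h2 := hl p1 p2 q (f (par c)) (by rw [hp]; simp)
  have h3 : nb A d p2.toFinset (f (par c)) ⊆ T.image f := by
    intro y hy
    rw [nb, Finset.mem_filter, List.mem_toFinset] at hy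
    exact h1 y hy.1 hy.2
  have h4 : f (par c) ∈ T.image f := Finset.mem_image_of_mem f hpc
  have h5 : p1 ≠ [] → p1.length + 1 ≤ 2 * (T.image f ∩ p1.toFinset).card := fun h =>
    hI2 p1 (f (par c) :: p2) hp h (by simp)
  rw [hp] at hnd
  have h6 := count_step hDEG hA d hnd h2 h4 h3 h5
  rw [hp]
  exact h6

theorem split_last {V : Type} {p' p1 p2 : List V} {y : V} (h : p' ++ [y] = p1 ++ p2)
    (h2 : p2 ≠ []) : ∃ p2', p2 = p2' ++ [y] ∧ p' = p1 ++ p2' := by
  obtain ⟨p2', z, rfl⟩ := (List.eq_nil_or_concat p2).resolve_left h2
  rw [List.concat_eq_append] at h ⊢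
  rw [← List.append_assoc] at h
  have := List.append_inj' h rfl
  obtain ⟨h3, h4⟩ := this
  simp only [List.cons.injEq, and_true] at h4
  exact ⟨p2', by rw [h4], h3⟩

theorem exists_inv {W V : Type} [DecidableEq W] [DecidableEq V] {A : V → V → Prop}
    (hDEG : DEG_stmt) (hA : Tour A) {r : W} {par : W → W} {dep : W → ℕ}
    (hR : Rooted r par dep) {sgn : W → Bool} {d : Bool} {S : Finset W} (hrS : r ∈ S)
    (hS : ∀ v ∈ S, par v ∈ S) (hsgn : ∀ v ∈ S, v ≠ r → sgn v = d) (p : List V) :
    ∀ q : List V, (p ++ q).Nodup →
    (∀ (l1 l2 l3 : List V) (x : V), p ++ q = l1 ++ x :: (l2 ++ l3) →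
        (nb A (!d) l2.toFinset x).card ≤ (nb A d l2.toFinset x).card) → p ≠ [] →
    ∃ T f, Inv A r par sgn d S p T f := by
  classical
  induction p using List.reverseRecOn with
  | nil => intro q _ _ h; exact absurd rfl h
  | append_singleton p y ih =>
    intro q hnd hl _
    have hndp : (p ++ [y]).Nodup := (List.nodup_append.1 hnd).1
    have hyp : y ∉ p := by
      intro h
      exact (List.nodup_append.1 hndp).2.2 y h y (by simp) rfl
    by_cases hp : p = []
    · subst hp
      refine ⟨{r}, fun _ => y, ⟨by simpa using hrS, ?_, by simp, ⟨?_, ?_, ?_⟩, ?_⟩⟩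
      · intro v hv
        rw [Finset.mem_singleton] at hv
        subst hv
        rw [hR.2.1]; simp
      · intro v _; simp
      · intro u hu v hv _
        rw [Finset.mem_singleton] at hu hv
        rw [hu, hv]
      · intro v hv hvr
        exact absurd (Finset.mem_singleton.1 hv) hvr
      · right
        constructor
        · intro w _ _ p1 p2 h z hz
          have hlen := congrArg List.length h
          simp only [List.length_append, List.length_cons, List.length_nil] at hlen
          have : p2 = [] := List.eq_nil_of_length_eq_zero (by omega)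
          subst this
          simp at hz
        · intro p1 p2 h hp1
          have hlen := congrArg List.length h
          simp only [List.nil_append, List.length_append, List.length_singleton] at hlen
          have hl1 : 0 < p1.length := List.length_pos_of_ne_nil hp1
          have : p2 = [] := List.eq_nil_of_length_eq_zero (by omega)
          subst this
          simp only [List.nil_append, List.append_nil] at h
          subst h
          simp
    · have hq : p ++ (y :: q) = p ++ [y] ++ q := by simp
      obtain ⟨T, f, hI⟩ := ih (y :: q) (by rw [hq]; exact hnd) (by rw [hq]; exact hl) hp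
      by_cases hTS : T = S
      · refine ⟨T, f, ⟨hI.sub, hI.closed, hI.root, ⟨?_, hI.emb.2.1, hI.emb.2.2⟩, Or.inl hTS⟩⟩
        intro v hv
        have := List.mem_toFinset.1 (hI.emb.1 v hv)
        simp [this]
      · obtain ⟨hI1, hI2⟩ := hI.alt.resolve_left hTS
        have hfy : ∀ v ∈ T, f v ≠ y := fun v hv h =>
          hyp (h ▸ List.mem_toFinset.1 (hI.emb.1 v hv))
        by_cases hc : ∃ c ∈ S, c ∉ T ∧ c ≠ r ∧ par c ∈ T ∧ Arc A d (f (par c)) y
        · obtain ⟨c, hcS, hcT, hcr, hpc, harc⟩ := hc
          set f' : W → V := Function.update f c y with hf'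
          have hfc : f' c = y := by simp [hf']
          have hfT : ∀ v ∈ T, f' v = f v := by
            intro v hv
            have : v ≠ c := fun h => hcT (h ▸ hv)
            simp [hf', this]
          have himg : T.image f ⊆ (insert c T).image f' := by
            intro z hz
            obtain ⟨v, hv, rfl⟩ := Finset.mem_image.1 hz
            rw [← hfT v hv]
            exact Finset.mem_image_of_mem f' (Finset.mem_insert_of_mem hv)
          have hsub' : insert c T ⊆ S := Finset.insert_subset hcS hI.sub
          have hemb' : Emb A r par sgn (insert c T) (p ++ [y]).toFinset f' := by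
            refine ⟨?_, ?_, ?_⟩
            · intro v hv
              rcases Finset.mem_insert.1 hv with rfl | hv
              · rw [hfc]; simp
              · rw [hfT v hv]
                have := List.mem_toFinset.1 (hI.emb.1 v hv)
                simp [this]
            · intro u hu v hv huv
              rcases Finset.mem_insert.1 hu with hu1 | hu1
              · rcases Finset.mem_insert.1 hv with hv1 | hv1
                · rw [hu1, hv1]
                · rw [hu1, hfc, hfT v hv1] at huv
                  exact absurd huv.symm (hfy v hv1)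
              · rcases Finset.mem_insert.1 hv with hv1 | hv1
                · rw [hv1, hfc, hfT u hu1] at huv
                  exact absurd huv (hfy u hu1)
                · rw [hfT u hu1, hfT v hv1] at huv
                  exact hI.emb.2.1 u hu1 v hv1 huv
            · intro v hv hvr _
              rcases Finset.mem_insert.1 hv with rfl | hv
              · rw [hfc, hfT _ hpc, hsgn v hcS hcr]
                exact harc
              · rw [hfT v hv, hfT _ (hI.closed v hv)]
                exact hI.emb.2.2 v hv hvr (hI.closed v hv)
          have hroot' : r ∈ insert c T := Finset.mem_insert_of_mem hI.root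
          refine ⟨insert c T, f', ⟨hsub', ?_, hroot', hemb', ?_⟩⟩
          · intro v hv
            rcases Finset.mem_insert.1 hv with rfl | hv
            · exact Finset.mem_insert_of_mem hpc
            · exact Finset.mem_insert_of_mem (hI.closed v hv)
          · by_cases hTS' : insert c T = S
            · exact Or.inl hTS'
            · right
              have hJ1 : ∀ w ∈ insert c T,
                  (∃ c' ∈ S, c' ∉ insert c T ∧ c' ≠ r ∧ par c' = w) →
                  ∀ p1 p2, p ++ [y] = p1 ++ f' w :: p2 → ∀ z ∈ p2, Arc A d (f' w) z →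
                  z ∈ (insert c T).image f' := by
                intro w hw hch p1 p2 hpp z hz harc'
                rcases Finset.mem_insert.1 hw with rfl | hw
                · rw [hfc] at hpp
                  have hp2 : p2 = [] := by
                    by_contra hne
                    obtain ⟨p2', h1, h2⟩ := split_last hpp (by simp)
                    rcases List.eq_nil_or_concat p2' with h3 | ⟨t, z', h3⟩
                    · subst h3
                      simp only [List.nil_append, List.cons.injEq, true_and] at h1
                      exact hne h1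
                    · have : y ∈ p := by
                        rw [h2]
                        cases p2' with
                        | nil => simp at h3
                        | cons b t' =>
                          simp only [List.cons_append, List.cons.injEq] at h1
                          rw [← h1.1]; simp
                      exact hyp this
                  subst hp2
                  simp at hz
                · rw [hfT w hw] at hpp harc'
                  obtain ⟨p2', h1, h2⟩ := split_last hpp (by simp)
                  cases p2' with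
                  | nil =>
                    simp only [List.nil_append, List.cons.injEq] at h1
                    exact absurd h1.1 (hfy w hw)
                  | cons b t =>
                    simp only [List.cons_append, List.cons.injEq] at h1
                    obtain ⟨hb, hp2⟩ := h1
                    subst hb
                    rw [hp2, List.mem_append, List.mem_singleton] at hz
                    rcases hz with hz | rfl
                    · obtain ⟨c', hc'S, hc'T, hc'r, hpc'⟩ := hch
                      apply himg
                      exact hI1 w hw ⟨c', hc'S, fun h => hc'T (Finset.mem_insert_of_mem h),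
                        hc'r, hpc'⟩ p1 t h2 z hz harc'
                    · rw [← hfc]
                      exact Finset.mem_image_of_mem f' (Finset.mem_insert_self _ _)
              have hJ2 : ∀ p1 p2, p ++ [y] = p1 ++ p2 → p1 ≠ [] → p2 ≠ [] →
                  p1.length + 1 ≤ 2 * ((insert c T).image f' ∩ p1.toFinset).card := by
                intro p1 p2 hpp hp1 hp2
                obtain ⟨p2', -, h2⟩ := split_last hpp hp2
                have h3 := hI2 p1 p2' h2 hp1
                have h4 : T.image f ∩ p1.toFinset ⊆ (insert c T).image f' ∩ p1.toFinset :=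
                  Finset.inter_subset_inter_right himg
                have := Finset.card_le_card h4
                omega
              refine ⟨hJ1, ?_⟩
              intro p1 p2 hpp hp1
              by_cases hp2 : p2 = []
              · subst hp2
                rw [List.append_nil] at hpp
                rw [← hpp]
                exact i2_full (q := q) hDEG hA hR hS hsub' hTS' hroot' hemb' hndp hl hJ1 hJ2
              · exact hJ2 p1 p2 hpp hp1 hp2
        · have hemb' : Emb A r par sgn T (p ++ [y]).toFinset f := by
            refine ⟨?_, hI.emb.2.1, hI.emb.2.2⟩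
            intro v hv
            have := List.mem_toFinset.1 (hI.emb.1 v hv)
            simp [this]
          refine ⟨T, f, ⟨hI.sub, hI.closed, hI.root, hemb', Or.inr ?_⟩⟩
          have hJ1 : ∀ w ∈ T, (∃ c' ∈ S, c' ∉ T ∧ c' ≠ r ∧ par c' = w) →
              ∀ p1 p2, p ++ [y] = p1 ++ f w :: p2 → ∀ z ∈ p2, Arc A d (f w) z →
              z ∈ T.image f := by
            intro w hw hch p1 p2 hpp z hz harc'
            obtain ⟨p2', h1, h2⟩ := split_last hpp (by simp)
            cases p2' with
            | nil =>
              simp only [List.nil_append, List.cons.injEq] at h1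
              exact absurd h1.1 (hfy w hw)
            | cons b t =>
              simp only [List.cons_append, List.cons.injEq] at h1
              obtain ⟨hb, hp2⟩ := h1
              subst hb
              rw [hp2, List.mem_append, List.mem_singleton] at hz
              rcases hz with hz | rfl
              · exact hI1 w hw hch p1 t h2 z hz harc'
              · exfalso
                obtain ⟨c', hc'S, hc'T, hc'r, hpc'⟩ := hch
                apply hc
                exact ⟨c', hc'S, hc'T, hc'r, by rw [hpc']; exact hw, by rw [hpc']; exact harc'⟩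
          have hJ2 : ∀ p1 p2, p ++ [y] = p1 ++ p2 → p1 ≠ [] → p2 ≠ [] →
              p1.length + 1 ≤ 2 * (T.image f ∩ p1.toFinset).card := by
            intro p1 p2 hpp hp1 hp2
            obtain ⟨p2', -, h2⟩ := split_last hpp hp2
            exact hI2 p1 p2' h2 hp1
          refine ⟨hJ1, ?_⟩
          intro p1 p2 hpp hp1
          by_cases hp2 : p2 = []
          · subst hp2
            rw [List.append_nil] at hpp
            rw [← hpp]
            exact i2_full (q := q) hDEG hA hR hS hI.sub hTS hI.root hemb' hndp hl hJ1 hJ2
          · exact hJ2 p1 p2 hpp hp1 hp2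

theorem ARB (h1 : LMO_stmt) (h2 : DEG_stmt) : ARB_stmt := by
  classical
  intro W V _ _ _ A hA r par dep hR sgn d S hrS hS hsgn X hX
  obtain ⟨l, hnd, hlX, hl⟩ := h1 V A hA d X
  have hSpos : 0 < S.card := Finset.card_pos.2 ⟨r, hrS⟩
  have hlen : l.length = X.card := by
    rw [← hlX, List.toFinset_card_of_nodup hnd]
  have hlne : l ≠ [] := by
    intro h
    rw [h] at hlen
    simp at hlen
    omega
  obtain ⟨T, f, hI⟩ := exists_inv (A := A) h2 hA hR hrS hS hsgn l [] (by simpa using hnd)
    (by simpa using hl) hlne
  by_cases hTS : T = S
  · refine ⟨f, ?_⟩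
    have := hI.emb
    rw [hTS, hlX] at this
    exact this
  · exfalso
    obtain ⟨-, hI2⟩ := hI.alt.resolve_left hTS
    have h3 := hI2 l [] (by simp) hlne
    have h4 : (T.image f ∩ l.toFinset).card ≤ T.card :=
      (Finset.card_le_card Finset.inter_subset_left).trans Finset.card_image_le
    have h5 : T.card < S.card := Finset.card_lt_card (Finset.ssubset_iff_subset_ne.2 ⟨hI.sub, hTS⟩)
    omega

end Pool.Agent.Helper13.SU
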