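import Pool.Agent.Helper18.SU.Goals2

/-!
IND: placing the components of sign `false` when the core is in the typical set.
-/

set_option autoImplicit false

namespace Pool.Agent.Helper13.SU

open Pool.Agent.Helper18.SU

theorem mem_nb {V : Type} {A : V → V → Prop} {d : Bool} {X : Finset V} {x y : V} :
    y ∈ nb A d X x ↔ y ∈ X ∧ Arc A d x y := by
  unfold nb
  simp only [Finset.mem_filter]

theorem mem_tops {W : Type} [Fintype W] {par : W → W} {K : Finset W} {c : W} :
    c ∈ tops par K ↔ c ∉ K ∧ par c ∈ K := by
  unfold tops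
  simp only [Finset.mem_filter, Finset.mem_univ, true_and]

theorem IND (h1 : CAN_stmt) (h2 : GRE_stmt) (h3 : DSC_stmt) (h4 : DEG_stmt) : IND_stmt := by
  intro W V _ _ _ _ A r par dep sgn K β m G E1 E2 E3 hctx hX1 hX2 hE3 hp f₀ hemb
  obtain ⟨hA, hR, hrK, hK, hβ, hm, hcard⟩ := hctx
  obtain ⟨D1, -, -, -, -, -, D7⟩ := h3 W r par dep hR
  obtain ⟨-, -, -, -, hmas⟩ := D7 K hrK hK
  have hmass := hmas sgn
  obtain ⟨G1, G2, -, -, -, G6, -, -⟩ := h4 V A hA
  have hCan := h1 W V A hA r par dep hR sgn Finset.univ
  set p := mas par sgn K true with hpdef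
  set q := mas par sgn K false with hqdef
  set X := low A true (p + G) with hX
  have hKpos : 0 < K.card := Finset.card_pos.2 ⟨r, hrK⟩
  set I := topd par sgn K false with hI
  -- basic facts on the items
  have hItops : ∀ c ∈ I, c ∈ tops par K := fun c hc => (Finset.mem_filter.1 hc).1
  have hIpar : ∀ c ∈ I, par c ∈ K := fun c hc => by
    exact (mem_tops.1 (hItops c hc)).2
  have hbsz : ∀ c, bsz par Finset.univ c = (dsc par c).card := by
    intro c
    unfold bsz dsi
    congr 1
    ext w
    simp
  have hbβ : ∀ c ∈ I, bsz par Finset.univ c ≤ β := fun c hc => by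
    rw [hbsz]; exact hβ c (hItops c hc)
  have hsum : ∑ i ∈ I, bsz par Finset.univ i = q := by
    rw [hqdef, mas]
    exact Finset.sum_congr rfl fun c _ => hbsz c
  -- facts on the images
  have hfx : ∀ c ∈ I, f₀ (par c) ∈ X ∧ p ≤ (nb A true X (f₀ (par c))).card + E2 := by
    intro c hc
    have := hemb.1 (par c) (hIpar c hc)
    rw [typ, Finset.mem_filter] at this
    exact this
  have hKX : K.image f₀ ⊆ X := by
    intro y hy
    obtain ⟨v, hv, rfl⟩ := Finset.mem_image.1 hy
    have := hemb.1 v hv
    rw [typ, Finset.mem_filter] at this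
    exact this.1
  have hdeg : ∀ x ∈ X, (nb A true Finset.univ x).card + 1 ≤ p + G := by
    intro x hx
    have := (Finset.mem_filter.1 hx).2
    omega
  have hKimg : (K.image f₀).card ≤ m := Finset.card_image_le.trans hm
  rcases le_or_gt E3 q with hq | hq
  · -- many vertices in the components: use `Y`
    set Y : Finset V := Finset.univ \ X with hY
    have hYcard : Y.card + X.card = Fintype.card V := by
      rw [hY, Finset.card_sdiff_add_card_eq_card (Finset.subset_univ _), Finset.card_univ]
    have hO : ∀ c ∈ I, ∑ i ∈ I, bsz par Finset.univ i + 2 * β + C0 ≤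
        (nb A false Y (f₀ (par c))).card := by
      intro c hc
      rw [hsum]
      obtain ⟨hx1, hx2⟩ := hfx c hc
      have hxY : f₀ (par c) ∉ Y := by
        rw [hY, Finset.mem_sdiff]; exact fun h => h.2 hx1
      have e1 := G1 Y _ hxY
      have e2 : (nb A true Y (f₀ (par c))).card + (nb A true X (f₀ (par c))).card ≤
          (nb A true Finset.univ (f₀ (par c))).card := by
        rw [← Finset.card_union_of_disjoint]
        · apply Finset.card_le_card
          exact Finset.union_subset (G6 true _ _ _ (Finset.subset_univ _))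
            (G6 true _ _ _ (Finset.subset_univ _))
        · rw [Finset.disjoint_left]
          intro y hy hy'
          rw [mem_nb] at hy hy'
          rw [hY, Finset.mem_sdiff] at hy
          exact hy.1.2 hy'.1
      have e3 := hdeg _ hx1
      omega
    obtain ⟨U, hU1, hU2⟩ := h2 W V (bsz par Finset.univ) (itm A r par sgn Finset.univ) hCan
      (fun c => nb A false Y (f₀ (par c))) I β hbβ hO
    refine ⟨U, ⟨?_, hU2⟩, ?_⟩
    · intro c hc
      obtain ⟨a1, a2, a3⟩ := hU1 c hc
      refine ⟨?_, a2, a3⟩
      intro y hy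
      have hy1 := a1 hy
      rw [Finset.mem_sdiff]
      refine ⟨G6 false _ _ _ (Finset.subset_univ _) hy1, ?_⟩
      intro hy2
      have hy3 := hKX hy2
      have hy4 := (mem_nb.1 hy1).1
      rw [hY, Finset.mem_sdiff] at hy4
      exact hy4.2 hy3
    · have hempty : I.biUnion U ∩ X = ∅ := by
        rw [Finset.eq_empty_iff_forall_notMem]
        intro y hy
        rw [Finset.mem_inter, Finset.mem_biUnion] at hy
        obtain ⟨⟨c, hc, hyc⟩, hyX⟩ := hy
        have hy1 := (hU1 c hc).1 hyc
        have hy4 := (mem_nb.1 hy1).1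
        rw [hY, Finset.mem_sdiff] at hy4
        exact hy4.2 hyX
      rw [hempty]
      simp
  · -- few vertices: use `X`
    have hO : ∀ c ∈ I, ∑ i ∈ I, bsz par Finset.univ i + 2 * β + C0 ≤
        (nb A false X (f₀ (par c)) \ K.image f₀).card := by
      intro c hc
      rw [hsum]
      obtain ⟨hx1, hx2⟩ := hfx c hc
      have e1 := G2 X _ hx1
      have e2 : (nb A true X (f₀ (par c))).card ≤ (nb A true Finset.univ (f₀ (par c))).card :=
        Finset.card_le_card (G6 true _ _ _ (Finset.subset_univ _))
      have e3 := hdeg _ hx1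
      have e4 := Finset.le_card_sdiff (K.image f₀) (nb A false X (f₀ (par c)))
      omega
    obtain ⟨U, hU1, hU2⟩ := h2 W V (bsz par Finset.univ) (itm A r par sgn Finset.univ) hCan
      (fun c => nb A false X (f₀ (par c)) \ K.image f₀) I β hbβ hO
    refine ⟨U, ⟨?_, hU2⟩, ?_⟩
    · intro c hc
      obtain ⟨a1, a2, a3⟩ := hU1 c hc
      refine ⟨?_, a2, a3⟩
      exact a1.trans (Finset.sdiff_subset_sdiff (G6 false _ _ _ (Finset.subset_univ _))
        (Finset.Subset.refl _))
    · have e1 : (I.biUnion U ∩ X).card ≤ (I.biUnion U).card :=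
        Finset.card_le_card Finset.inter_subset_left
      have e2 : (I.biUnion U).card ≤ ∑ c ∈ I, (U c).card := Finset.card_biUnion_le
      have e3 : ∑ c ∈ I, (U c).card = q := by
        rw [← hsum]
        exact Finset.sum_congr rfl fun c hc => (hU1 c hc).2.1
      omega

end Pool.Agent.Helper13.SU
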