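import Mathlib
import Pool.Agent.Helper18.SU.Goals

/-!
LEV: the level function of the heavy path decomposition.
-/

set_option autoImplicit false

namespace Pool.Agent.Helper13.SU

open Pool.Agent.Helper18.SU

open Classical in
/-- The descendants of `v`. -/
noncomputable def desc {W : Type} [Fintype W] (par : W → W) (v : W) : Finset W :=
  Finset.univ.filter (fun w => ∃ k, par^[k] w = v)

/-- The recursion for the level function. -/
noncomputable def levRec {W : Type} [DecidableEq W] (par h : W → W) (K : Finset W) :
    ℕ → W → ℕ
  | 0, _ => 0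
  | (n + 1), v =>
      if v ∈ K then 0 else if par v ∈ K then 1 else
        if v = h (par v) then levRec par h K n (par v) else levRec par h K n (par v) + 1

theorem LEV : LEV_stmt := by
  classical
  intro W _ _ r par dep hR K hrK hKpar
  obtain ⟨hd0, hpr, hdep⟩ := hR
  have hdpar : ∀ x, dep (par x) = dep x - 1 := by
    intro x
    by_cases hx : x = r
    · subst hx; rw [hpr, hd0]
    · have := hdep x hx; omega
  have hdit : ∀ k w, dep (par^[k] w) = dep w - k := by
    intro k
    induction k with
    | zero => intro w; simp
    | succ k ih =>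
      intro w
      rw [Function.iterate_succ_apply', hdpar, ih]; omega
  have hmem : ∀ v w, w ∈ desc par v ↔ ∃ k, par^[k] w = v := by
    intro v w; simp [desc]
  have hself : ∀ v, v ∈ desc par v := fun v => (hmem v v).2 ⟨0, rfl⟩
  have hsub : ∀ u v, par v = u → desc par v ⊆ desc par u := by
    intro u v huv w hw
    obtain ⟨k, hk⟩ := (hmem _ _).1 hw
    refine (hmem _ _).2 ⟨k + 1, ?_⟩
    rw [Function.iterate_succ_apply', hk, huv]
  have hnot : ∀ u v, v ≠ r → par v = u → u ∉ desc par v := by
    intro u v hv huv hu
    obtain ⟨k, hk⟩ := (hmem _ _).1 hu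
    have h1 := hdit k u
    rw [hk] at h1
    have h2 := hdep v hv
    rw [huv] at h2
    omega
  have hdisj : ∀ u v v', v ≠ r → v' ≠ r → par v = u → par v' = u → v ≠ v' →
      Disjoint (desc par v) (desc par v') := by
    intro u v v' hv hv' huv huv' hne
    rw [Finset.disjoint_left]
    intro w hw hw'
    obtain ⟨k, hk⟩ := (hmem _ _).1 hw
    obtain ⟨k', hk'⟩ := (hmem _ _).1 hw'
    have h1 := hdit k w
    have h1' := hdit k' w
    rw [hk] at h1
    rw [hk'] at h1'
    have h2 := hdep v hv
    have h2' := hdep v' hv'
    rw [huv] at h2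
    rw [huv'] at h2'
    have : k = k' := by omega
    subst this
    exact hne (hk.symm.trans hk')
  have hsz2 : ∀ u v v', v ≠ r → v' ≠ r → par v = u → par v' = u → v ≠ v' →
      (desc par v).card + (desc par v').card + 1 ≤ (desc par u).card := by
    intro u v v' hv hv' huv huv' hne
    have h1 : (insert u (desc par v ∪ desc par v')).card =
        (desc par v).card + (desc par v').card + 1 := by
      rw [Finset.card_insert_of_notMem, Finset.card_union_of_disjoint
        (hdisj u v v' hv hv' huv huv' hne)]
      rw [Finset.mem_union, not_or]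
      exact ⟨hnot u v hv huv, hnot u v' hv' huv'⟩
    rw [← h1]
    apply Finset.card_le_card
    intro w hw
    rw [Finset.mem_insert, Finset.mem_union] at hw
    rcases hw with rfl | hw | hw
    · exact hself _
    · exact hsub u v huv hw
    · exact hsub u v' huv' hw
  have hKit : ∀ k w, w ∈ K → par^[k] w ∈ K := by
    intro k
    induction k with
    | zero => intro w hw; simpa using hw
    | succ k ih =>
      intro w hw
      rw [Function.iterate_succ_apply']
      exact hKpar _ (ih w hw)
  have hszK : ∀ v, v ∉ K → (desc par v).card ≤ Fintype.card W - K.card := by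
    intro v hv
    have h1 : desc par v ⊆ Kᶜ := by
      intro w hw
      rw [Finset.mem_compl]
      intro hwK
      obtain ⟨k, hk⟩ := (hmem _ _).1 hw
      exact hv (hk ▸ hKit k w hwK)
    have h2 := Finset.card_le_card h1
    rwa [Finset.card_compl] at h2
  -- heavy children
  have hheavy : ∀ u, ∃ x, (∃ v, v ≠ r ∧ par v = u) →
      (x ≠ r ∧ par x = u ∧ ∀ v, v ≠ r → par v = u → (desc par v).card ≤ (desc par x).card) := by
    intro u
    by_cases hu : ∃ v, v ≠ r ∧ par v = u
    · obtain ⟨v0, hv0, hv0'⟩ := hu
      have hne : (Finset.univ.filter (fun v : W => v ≠ r ∧ par v = u)).Nonempty :=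
        ⟨v0, by simp [hv0, hv0']⟩
      obtain ⟨x, hx, hmax⟩ := Finset.exists_max_image _ (fun v => (desc par v).card) hne
      rw [Finset.mem_filter] at hx
      refine ⟨x, fun _ => ⟨hx.2.1, hx.2.2, fun v hv hvu => hmax v ?_⟩⟩
      simp [hv, hvu]
    · exact ⟨r, fun h => absurd h hu⟩
  choose h hh using hheavy
  let lev : W → ℕ := fun v => levRec par h K (dep v) v
  have hneK : ∀ v, v ∉ K → v ≠ r := fun v hv hvr => hv (hvr ▸ hrK)
  have hlevK : ∀ v, v ∈ K → lev v = 0 := by
    intro v hv
    show levRec par h K (dep v) v = 0
    cases hn : dep v with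
    | zero => rfl
    | succ n => simp [levRec, hv]
  have hlev : ∀ v, v ∉ K → lev v = if par v ∈ K then 1 else
      if v = h (par v) then lev (par v) else lev (par v) + 1 := by
    intro v hv
    have h1 := hdep v (hneK v hv)
    show levRec par h K (dep v) v = _
    rw [← h1]
    simp only [levRec, if_neg hv]
    rfl
  have hpos : ∀ n v, dep v = n → v ∉ K → lev v ≠ 0 := by
    intro n
    induction n using Nat.strong_induction_on with
    | _ n ih =>
      intro v hn hv
      rw [hlev v hv]
      by_cases hpK : par v ∈ K
      · simp [hpK]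
      · rw [if_neg hpK]
        have h1 := hdep v (hneK v hv)
        have h2 := ih (dep (par v)) (by omega) (par v) rfl hpK
        split_ifs <;> omega
  have hbound : ∀ n v, dep v = n → v ∉ K →
      2 ^ (lev v - 1) * (desc par v).card ≤ Fintype.card W - K.card := by
    intro n
    induction n using Nat.strong_induction_on with
    | _ n ih =>
      intro v hn hv
      have hvr := hneK v hv
      have h1 := hdep v hvr
      by_cases hpK : par v ∈ K
      · rw [hlev v hv, if_pos hpK]
        simpa using hszK v hv
      · have h2 := ih (dep (par v)) (by omega) (par v) rfl hpK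
        have h3 := hpos _ (par v) rfl hpK
        have hH := hh (par v) ⟨v, hvr, rfl⟩
        rw [hlev v hv, if_neg hpK]
        split_ifs with hvh
        · refine le_trans (Nat.mul_le_mul_left _ ?_) h2
          exact Finset.card_le_card (hsub _ _ rfl)
        · have h4 := hsz2 (par v) v (h (par v)) hvr hH.1 rfl hH.2.1 hvh
          have h5 := hH.2.2 v hvr rfl
          have h6 : lev (par v) + 1 - 1 = (lev (par v) - 1) + 1 := by omega
          rw [h6, pow_succ, mul_assoc]
          refine le_trans (Nat.mul_le_mul_left _ ?_) h2
          omega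
  refine ⟨lev, ⟨?_, ?_, ?_⟩, ?_⟩
  · intro v
    constructor
    · intro hv
      by_contra hvK
      exact hpos _ v rfl hvK hv
    · exact hlevK v
  · intro v hv
    rw [hlev v hv]
    by_cases hpK : par v ∈ K
    · rw [if_pos hpK, hlevK _ hpK]; right; rfl
    · rw [if_neg hpK]
      split_ifs
      · left; rfl
      · right; rfl
  · intro u v hu hv huv hlu hlv
    have key : ∀ x, x ∉ K → lev x = lev (par x) → x = h (par x) := by
      intro x hx hlx
      rw [hlev x hx] at hlx
      by_cases hpK : par x ∈ K
      · rw [if_pos hpK, hlevK _ hpK] at hlx; omega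
      · rw [if_neg hpK] at hlx
        by_contra hne
        rw [if_neg hne] at hlx
        omega
    rw [key u hu hlu, key v hv hlv, huv]
  · intro v hv
    have h1 := hbound _ v rfl hv
    have h2 : 1 ≤ (desc par v).card := Finset.card_pos.2 ⟨v, hself v⟩
    calc 2 ^ (lev v - 1) = 2 ^ (lev v - 1) * 1 := by ring
      _ ≤ 2 ^ (lev v - 1) * (desc par v).card := Nat.mul_le_mul_left _ h2
      _ ≤ _ := h1

end Pool.Agent.Helper13.SU
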